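import Pool.Agent.HilbertReverse.Stmt

set_option autoImplicit false

namespace Pool.Agent.Results.MP_2655df_gt.EveryReading

open Pool.Agent.HilbertReverse

theorem result (K : Set (ℝ × ℝ)) (hopen : IsOpen K) (hconv : Convex ℝ K)
    (hbdd : Bornology.IsBounded K) (hne : K.Nonempty) :
    List.TFAE [
      IsEllipse K,
      ∀ A ∈ K, ∀ B ∈ K, ∀ C ∈ K, ¬ Collinear ℝ {A, B, C} →
        IsPencil {ℓ | RevMedian K A B ℓ ∨ RevMedian K B C ℓ ∨ RevMedian K C A ℓ},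
      ∀ A ∈ K, ∀ B ∈ K, ∀ C ∈ K, ¬ Collinear ℝ {A, B, C} →
        ∀ ℓ₁ ℓ₂ ℓ₃, RevMedian K A B ℓ₁ → RevMedian K B C ℓ₂ → RevMedian K C A ℓ₃ →
          IsPencil {ℓ₁, ℓ₂, ℓ₃},
      ∀ A ∈ K, ∀ B ∈ K, ∀ C ∈ K, ¬ Collinear ℝ {A, B, C} →
        ∃ ℓ₁ ℓ₂ ℓ₃, RevMedian K A B ℓ₁ ∧ RevMedian K B C ℓ₂ ∧ RevMedian K C A ℓ₃ ∧
          IsPencil {ℓ₁, ℓ₂, ℓ₃},
      ∃ C₀ : Set (ℝ × ℝ), IsCompact C₀ ∧ C₀ ⊆ K ∧
        ∀ A ∈ K \ C₀, ∀ B ∈ K \ C₀, ∀ C ∈ K \ C₀, ¬ Collinear ℝ {A, B, C} →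
          ∃ ℓ₁ ℓ₂ ℓ₃, RevMedian K A B ℓ₁ ∧ RevMedian K B C ℓ₂ ∧ RevMedian K C A ℓ₃ ∧
            IsPencil {ℓ₁, ℓ₂, ℓ₃}] := by
  tfae_have 1 → 2 := by
    rintro ⟨f, hf⟩ A hA B hB C hC hcol
    obtain ⟨hAB, hBC, hCA⟩ := ne_of_not_collinear hcol
    have hK : K = f '' UD := hf
    have iff1 := fun ℓ => revMedian_iff hopen hconv hbdd hA hB (ℓ := ℓ)
    have iff2 := fun ℓ => revMedian_iff hopen hconv hbdd hB hC (ℓ := ℓ)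
    have iff3 := fun ℓ => revMedian_iff hopen hconv hbdd hC hA (ℓ := ℓ)
    rcases pencil_ell f (hK ▸ hA) (hK ▸ hB) (hK ▸ hC) hAB hBC hCA with ⟨p, hp⟩ | ⟨V, hV⟩
    · left
      refine ⟨p, fun ℓ hℓ => hp ℓ ?_⟩
      rw [← hK]
      rcases hℓ with h | h | h
      · exact Or.inl ((iff1 ℓ).mp h)
      · exact Or.inr (Or.inl ((iff2 ℓ).mp h))
      · exact Or.inr (Or.inr ((iff3 ℓ).mp h))
    · right
      refine ⟨V, fun ℓ hℓ => hV ℓ ?_⟩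
      rw [← hK]
      rcases hℓ with h | h | h
      · exact Or.inl ((iff1 ℓ).mp h)
      · exact Or.inr (Or.inl ((iff2 ℓ).mp h))
      · exact Or.inr (Or.inr ((iff3 ℓ).mp h))
  tfae_have 2 → 3 := by
    intro h A hA B hB C hC hcol ℓ₁ ℓ₂ ℓ₃ h1 h2 h3
    have hsub : ∀ ℓ ∈ ({ℓ₁, ℓ₂, ℓ₃} : Set (AffineSubspace ℝ (ℝ × ℝ))),
        RevMedian K A B ℓ ∨ RevMedian K B C ℓ ∨ RevMedian K C A ℓ := by
      intro ℓ hℓ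
      rcases hℓ with rfl | rfl | rfl
      · exact Or.inl h1
      · exact Or.inr (Or.inl h2)
      · exact Or.inr (Or.inr h3)
    rcases h A hA B hB C hC hcol with ⟨p, hp⟩ | ⟨V, hV⟩
    · exact Or.inl ⟨p, fun ℓ hℓ => hp ℓ (hsub ℓ hℓ)⟩
    · exact Or.inr ⟨V, fun ℓ hℓ => hV ℓ (hsub ℓ hℓ)⟩
  tfae_have 3 → 4 := by
    intro h A hA B hB C hC hcol
    obtain ⟨hAB, hBC, hCA⟩ := ne_of_not_collinear hcol
    obtain ⟨ℓ₁, h1⟩ := exists_RR hopen hconv hbdd hA hB hAB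
    obtain ⟨ℓ₂, h2⟩ := exists_RR hopen hconv hbdd hB hC hBC
    obtain ⟨ℓ₃, h3⟩ := exists_RR hopen hconv hbdd hC hA hCA
    have h1' := (revMedian_iff hopen hconv hbdd hA hB).mpr h1
    have h2' := (revMedian_iff hopen hconv hbdd hB hC).mpr h2
    have h3' := (revMedian_iff hopen hconv hbdd hC hA).mpr h3
    exact ⟨ℓ₁, ℓ₂, ℓ₃, h1', h2', h3', h A hA B hB C hC hcol ℓ₁ ℓ₂ ℓ₃ h1' h2' h3'⟩
  tfae_have 4 → 5 := by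
    intro h
    exact ⟨∅, isCompact_empty, Set.empty_subset K,
      fun A hA B hB C hC hcol => h A hA.1 B hB.1 C hC.1 hcol⟩
  tfae_have 5 → 1 := by
    rintro ⟨C₀, hC₀, hsub, h⟩
    refine ellipse_of_wpencil hopen hconv hbdd ⟨C₀, hC₀, hsub, ?_⟩ hne
    intro a b c ha hb hc ha' hb' hc' hcol
    obtain ⟨ℓ₁, ℓ₂, ℓ₃, h1, h2, h3, hp⟩ := h a ⟨ha, ha'⟩ b ⟨hb, hb'⟩ c ⟨hc, hc'⟩ hcol
    refine ⟨ℓ₁, ℓ₂, ℓ₃, (revMedian_iff hopen hconv hbdd ha hb).mp h1,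
      (revMedian_iff hopen hconv hbdd hb hc).mp h2,
      (revMedian_iff hopen hconv hbdd hc ha).mp h3, ?_⟩
    rcases hp with ⟨p, hp⟩ | ⟨V, hV⟩
    · exact Or.inl ⟨p, hp ℓ₁ (by simp), hp ℓ₂ (by simp), hp ℓ₃ (by simp)⟩
    · refine Or.inr ⟨?_, ?_⟩
      · rw [hV ℓ₁ (by simp), hV ℓ₂ (by simp)]
      · rw [hV ℓ₂ (by simp), hV ℓ₃ (by simp)]
  tfae_finish

end Pool.Agent.Results.MP_2655df_gt.EveryReading
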